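import Pool.Agent.Helper27.KS.GoalsF
import Pool.Agent.Helper89.GP.Basic

/-!
# Conditioning on one comparison
-/

namespace Pool.Agent.Helper14.KS

open Finset
open Pool.Agent.Helper44.KS Pool.Agent.Helper75.KS Pool.Agent.Helper27.KS Pool.Agent.Helper89.GP

noncomputable section

theorem LX_ad (n : ℕ) (R : Fin n → Fin n → Prop) (u v : Fin n) :
    LX (ad R u v) = by classical exact (LX R).filter fun σ => po σ u < po σ v := by
  classical
  ext σ
  rw [mem_LX, mem_filter, mem_LX]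
  constructor
  · intro h
    exact ⟨fun a b hab => h a b (Or.inl hab), po_lt.2 (h u v (Or.inr ⟨rfl, rfl⟩))⟩
  · rintro ⟨h1, h2⟩ a b hab
    rcases hab with hab | ⟨rfl, rfl⟩
    · exact h1 a b hab
    · exact po_lt.1 h2

theorem Ex_ad_le (n : ℕ) (R : Fin n → Fin n → Prop) (u v : Fin n)
    (hne : (LX (ad R u v)).Nonempty) (X : Equiv.Perm (Fin n) → ℝ) (hX : ∀ σ, 0 ≤ X σ) :
    (Pr R fun σ => po σ u < po σ v) * Ex (ad R u v) X ≤ Ex R X := by
  classical
  have h1 : (0 : ℝ) < (LX (ad R u v)).card := card_pos_real hne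
  have hsub : LX (ad R u v) ⊆ LX R := by
    rw [LX_ad]; exact filter_subset _ _
  have h2 : (0 : ℝ) < (LX R).card := card_pos_real (hne.mono hsub)
  rw [Pr_def]
  have hc : (LX R).filter (fun σ => po σ u < po σ v) = LX (ad R u v) := by
    rw [LX_ad]
  rw [hc]
  unfold Ex
  have : ((LX (ad R u v)).card : ℝ) / (LX R).card *
      ((∑ σ ∈ LX (ad R u v), X σ) / (LX (ad R u v)).card) =
      (∑ σ ∈ LX (ad R u v), X σ) / (LX R).card := by
    field_simp
  rw [this]
  gcongr
  exact fun i _ _ => hX i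

theorem Pr_ad_le (n : ℕ) (R : Fin n → Fin n → Prop) (u v : Fin n)
    (hne : (LX (ad R u v)).Nonempty) (p : Equiv.Perm (Fin n) → Prop) :
    (Pr R fun σ => po σ u < po σ v) * Pr (ad R u v) p ≤ Pr R p := by
  classical
  rw [Pr_eq_Ex p, Pr_eq_Ex (R := R) p]
  refine Ex_ad_le n R u v hne _ fun σ => ?_
  split_ifs <;> norm_num

theorem Ff_ad_le (n : ℕ) (R : Fin n → Fin n → Prop) (u v : Fin n)
    (hne : (LX (ad R u v)).Nonempty) (p q : Fin n) (t : ℝ) (ht : 0 ≤ t) :
    (Pr R fun σ => po σ u < po σ v) * Ff (ad R u v) p q t ≤ Ff R p q t := by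
  unfold Ff
  rw [mul_sum]
  refine sum_le_sum fun k _ => ?_
  have h1 := Pr_ad_le n R u v hne fun σ => po σ q = po σ p + (k + 1)
  have h2 : (0 : ℝ) ≤ t ^ k / (k.factorial : ℝ) := by positivity
  have h3 := mul_le_mul_of_nonneg_right h1 h2
  unfold bq
  calc _ = (Pr R fun σ => po σ u < po σ v) *
      (Pr (ad R u v) fun σ => po σ q = po σ p + (k + 1)) * (t ^ k / (k.factorial : ℝ)) := by ring
    _ ≤ _ := h3
    _ = _ := by ring

theorem cmp : CmpStmt := by
  intro n R u v hne
  refine ⟨fun X hX => Ex_ad_le n R u v hne X hX, fun p q t => ?_, LX_ad n R u v⟩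
  unfold Gd
  split_ifs with ht
  · have h := Ff_ad_le n R u v hne p q t ht
    have := mul_le_mul_of_nonneg_left h (Real.exp_pos (-t)).le
    linarith
  · have h := Ff_ad_le n R u v hne q p (-t) (by linarith)
    have := mul_le_mul_of_nonneg_left h (Real.exp_pos t).le
    linarith

end

end Pool.Agent.Helper14.KS
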