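import Pool.Agent.Helper44.KS.GoalsC

namespace Pool.Agent.Helper14.KS

open MeasureTheory Filter Topology Set
open Pool.Agent.Helper44.KS

noncomputable section

theorem tlp_num (s : ℝ) (hs : 16 ≤ s) :
    4 * (2 : ℝ) ^ (-((s / (4 * (4 + √s))) / 6)) ≤
      (4 * (8 * 48 ^ 6 * (720 / Real.log 2 ^ 6))) / (1 + s) ^ 3 := by
  have hs0 : 0 < s := by linarith
  have hsq : 0 ≤ √s := Real.sqrt_nonneg s
  have h4 : 4 ≤ √s := by
    rw [show (4 : ℝ) = √16 from by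
      rw [show (16 : ℝ) = 4 ^ 2 by norm_num]; exact (Real.sqrt_sq (by norm_num)).symm]
    exact Real.sqrt_le_sqrt hs
  have hss : √s * √s = s := Real.mul_self_sqrt hs0.le
  set u : ℝ := √s / 48 with hu
  have hu0 : 0 < u := by rw [hu]; positivity
  have hle : u ≤ (s / (4 * (4 + √s))) / 6 := by
    rw [div_div, le_div_iff₀ (by positivity)]
    rw [hu]
    nlinarith [hss, h4]
  have hl2 : 0 < Real.log 2 := Real.log_pos (by norm_num)
  have h1 : (2 : ℝ) ^ (-((s / (4 * (4 + √s))) / 6)) ≤ (2 : ℝ) ^ (-u) :=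
    Real.rpow_le_rpow_of_exponent_le (by norm_num) (by linarith)
  have h2 : (2 : ℝ) ^ (-u) = Real.exp (-(u * Real.log 2)) := by
    rw [Real.rpow_def_of_pos (by norm_num)]; congr 1; ring
  have h3 : (u * Real.log 2) ^ 6 / 720 ≤ Real.exp (u * Real.log 2) := by
    have := Real.pow_div_factorial_le_exp (u * Real.log 2) (by positivity) 6
    have h720 : ((Nat.factorial 6 : ℕ) : ℝ) = 720 := by norm_num [Nat.factorial]
    rwa [h720] at this
  have hpos : 0 < (u * Real.log 2) ^ 6 / 720 := by positivity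
  have h4' : Real.exp (-(u * Real.log 2)) ≤ ((u * Real.log 2) ^ 6 / 720)⁻¹ := by
    rw [Real.exp_neg]
    exact inv_anti₀ hpos h3
  have h5 : (1 + s) ^ 3 ≤ 8 * (48 * u) ^ 6 := by
    have e1 : (48 * u) ^ 6 = s ^ 3 := by
      have : 48 * u = √s := by rw [hu]; ring
      rw [this, show (6 : ℕ) = 2 * 3 from rfl, pow_mul, Real.sq_sqrt hs0.le]
    rw [e1]
    have : 1 + s ≤ 2 * s := by linarith
    calc (1 + s) ^ 3 ≤ (2 * s) ^ 3 := by gcongr
      _ = 8 * s ^ 3 := by ring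
  have h6 : (2 : ℝ) ^ (-((s / (4 * (4 + √s))) / 6)) ≤ ((u * Real.log 2) ^ 6 / 720)⁻¹ :=
    (h1.trans h2.le).trans h4'
  rw [le_div_iff₀ (by positivity)]
  have h7 : ((u * Real.log 2) ^ 6 / 720)⁻¹ * (8 * (48 * u) ^ 6) =
      8 * 48 ^ 6 * (720 / Real.log 2 ^ 6) := by
    field_simp
  calc 4 * (2 : ℝ) ^ (-((s / (4 * (4 + √s))) / 6)) * (1 + s) ^ 3
      ≤ 4 * ((u * Real.log 2) ^ 6 / 720)⁻¹ * (8 * (48 * u) ^ 6) := by
        gcongr
    _ = 4 * (((u * Real.log 2) ^ 6 / 720)⁻¹ * (8 * (48 * u) ^ 6)) := by ring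
    _ = 4 * (8 * 48 ^ 6 * (720 / Real.log 2 ^ 6)) := by rw [h7]

theorem a_ref (c : ℝ) (Z : KSys c) : Z.a Z.x = 0 := by
  unfold KSys.a
  rw [integral_congr_ae (g := fun _ => (0 : ℝ)) Z.ref]
  simp

theorem dist_ref (c : ℝ) (Z : KSys c) (p : Fin Z.n) :
    Z.dist p Z.x = ∫ d, |Z.Y d p| ∂Z.μ := by
  unfold KSys.dist
  apply integral_congr_ae
  filter_upwards [Z.ref] with d hd
  have : Z.Y d Z.x = 0 := by
    unfold KSys.Y
    rw [hd, a_ref]; simp
  rw [this, sub_zero]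

theorem tlp (h1 : S_TLK) : S_TLP := by
  refine ⟨4 * (8 * 48 ^ 6 * (720 / Real.log 2 ^ 6)) + 17 ^ 3, ?_, ?_⟩
  · have hl2 : 0 < Real.log 2 := Real.log_pos (by norm_num)
    positivity
  intro c Z p
  have hl2 : 0 < Real.log 2 := Real.log_pos (by norm_num)
  set s : ℝ := |Z.a p| with hs
  have hs0 : 0 ≤ s := abs_nonneg _
  rcases le_or_gt 16 s with h16 | h16
  · have he : 0 < 4 + √s := by positivity
    have hd : Z.dist p Z.x ≤ 4 + √s := by
      rw [dist_ref]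
      exact Z.m2 p
    have hl : 0 ≤ s / (4 * (4 + √s)) := by positivity
    have hT := h1 c Z p (4 + √s) (s / (4 * (4 + √s))) he hd hl
    have hsub : {d : Fin Z.n → ℝ | s / 2 ≤ |Z.Y d p|} ⊆
        {d | s / (4 * (4 + √s)) * (4 + √s) < |Z.Y d p|} := by
      intro d hd
      simp only [mem_setOf_eq] at hd ⊢
      have : s / (4 * (4 + √s)) * (4 + √s) = s / 4 := by
        field_simp
      rw [this]
      linarith
    calc Z.μ.real {d | s / 2 ≤ |Z.Y d p|}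
        ≤ Z.μ.real {d | s / (4 * (4 + √s)) * (4 + √s) < |Z.Y d p|} :=
          measureReal_mono hsub (measure_ne_top _ _)
      _ ≤ 4 * (2 : ℝ) ^ (-((s / (4 * (4 + √s))) / 6)) := hT
      _ ≤ (4 * (8 * 48 ^ 6 * (720 / Real.log 2 ^ 6))) / (1 + s) ^ 3 := tlp_num s h16
      _ ≤ (4 * (8 * 48 ^ 6 * (720 / Real.log 2 ^ 6)) + 17 ^ 3) / (1 + s) ^ 3 := by
        gcongr
        linarith [show (0 : ℝ) < 17 ^ 3 by norm_num]
  · have h1' : Z.μ.real {d | s / 2 ≤ |Z.Y d p|} ≤ 1 := measureReal_le_one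
    refine h1'.trans ?_
    rw [le_div_iff₀ (by positivity), one_mul]
    have : (1 + s) ^ 3 ≤ 17 ^ 3 := by
      gcongr
      linarith
    have hp : 0 ≤ 4 * (8 * 48 ^ 6 * (720 / Real.log 2 ^ 6)) := by positivity
    linarith

end

end Pool.Agent.Helper14.KS
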